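import Pool.Agent.H.MP_735d18_an.A
import Pool.Agent.H.MP_d2b9e5.B

set_option autoImplicit false
open Set Filter Topology
open scoped ENNReal
open Pool.Agent.H.MP_735d18_an Pool.Agent.H.MP_d2b9e5

namespace Pool.Agent.Results.MP_735d18_an.NoSystem

noncomputable def F : ℕ → Om → Finset Om := (exF Om2).choose
lemma hF : OM F := (exF Om2).choose_spec.1

noncomputable def rho (c α : Om) : ℕ := sInf {n | c ∈ F n α}
lemma rho_mem {c α : Om} (h : c ≤ α) : c ∈ F (rho c α) α := Nat.sInf_mem (hF.p5 α c h)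
noncomputable def en (α c : Om) : ℕ := Nat.pair (rho c α) (F (rho c α) c).card + 1

lemma en_inj (α : Om) : Function.Injective fun c : Iio α => en α c := by
  have key : ∀ c d : Om, c ≤ d → d < α → en α c = en α d → d ≤ c := by
    intro c d h1 h2 h3
    obtain ⟨h4, h5⟩ := Nat.pair_eq_pair.1 (Nat.succ_injective h3)
    have h6 : c ∈ F (rho d α) d := (hF.p3 _ α d (rho_mem h2.le) c h1).1 (h4 ▸ rho_mem (h1.trans h2.le))
    rw [h4] at h5
    have h7 := Finset.eq_of_subset_of_card_le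
      (fun x hx => (hF.p3 _ d c h6 x (hF.p2 _ _ x hx)).2 hx) h5.ge
    exact hF.p2 (rho d α) c d (h7 ▸ hF.p1 _ d)
  intro c d h
  rcases le_total c.1 d.1 with h1 | h1
  · exact Subtype.ext (le_antisymm h1 (key _ _ h1 d.2 h))
  · exact Subtype.ext (le_antisymm (key _ _ h1 c.2 h.symm) h1)

noncomputable def mm (δ α : Om) : Σ k : ℕ, (F k δ → ℕ) := ⟨rho δ α, fun c => rho c α⟩

lemma rho_out {δ α c : Om} (h : δ ≤ α) (hc : c ≤ δ) (h1 : c ∉ F (rho δ α) δ) : rho c α = rho c δ := by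
  unfold rho; congr 1; ext n
  rcases le_total (rho δ α) n with h2 | h2
  · exact hF.p3 n α δ (hF.p4 α h2 (rho_mem h)) c hc
  · exact ⟨fun h3 => absurd ((hF.p3 _ α δ (rho_mem h) c hc).1 (hF.p4 α h2 h3)) h1,
      fun h3 => absurd (hF.p4 δ h2 h3) h1⟩

lemma en_eq {δ α β c : Om} (ha : δ ≤ α) (hb : δ ≤ β) (h : mm δ α = mm δ β) (hc : c ≤ δ) :
    en α c = en β c := by
  classical
  have h1 : rho δ α = rho δ β := congrArg Sigma.fst h
  have h2 : rho c α = rho c β := by
    by_cases h3 : c ∈ F (rho δ α) δ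
    · have := congrArg (fun z : Σ k : ℕ, (F k δ → ℕ) => if h : c ∈ F z.1 δ then z.2 ⟨c, h⟩ else 0) h
      simpa only [mm, dif_pos h3, dif_pos (h1 ▸ h3 : c ∈ F (rho δ β) δ)] using this
    · rw [rho_out ha hc h3, rho_out hb hc (h1 ▸ h3)]
  rw [en, en, h2]

noncomputable def A (α : Om) (x : Om → ℝ) : ℕ → ℝ :=
  Function.extend (fun c : Iio α => en α c) (fun c => x c) 0

lemma A1 {α c : Om} (h : c < α) (x : Om → ℝ) : A α x (en α c) = x c :=
  (en_inj α).extend_apply _ _ ⟨c, h⟩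

lemma A2 (α : Om) (n : ℕ) : (∃ c < α, n = en α c) ∨ ∀ x, A α x n = 0 := by
  by_cases h : ∃ c : Iio α, en α c = n
  · obtain ⟨c, hc⟩ := h
    exact Or.inl ⟨c, c.2, hc.symm⟩
  · exact Or.inr fun x => Function.extend_apply' _ _ _ h

lemma A_eq {δ α β : Om} (ha : δ < α) (hb : δ < β) (h : mm δ α = mm δ β) (x : Om → ℝ)
    (hx : ∀ c, δ < c → x c = 0) : A α x = A β x := by
  funext n
  by_cases h1 : ∃ c ≤ δ, n = en α c
  · obtain ⟨c, h1, rfl⟩ := h1
    rw [A1 (h1.trans_lt ha), en_eq ha.le hb.le h h1, A1 (h1.trans_lt hb)]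
  · have z : ∀ γ, (¬ ∃ c ≤ δ, n = en γ c) → A γ x n = 0 := fun γ h2 => by
      rcases A2 γ n with ⟨c, h3, rfl⟩ | h3
      · rw [A1 h3]; exact hx c (not_le.1 fun h4 => h2 ⟨c, h4, rfl⟩)
      · exact h3 x
    rw [z α h1, z β fun ⟨c, h2, h3⟩ => h1 ⟨c, h2, h3.trans (en_eq ha.le hb.le h h2).symm⟩]

abbrev B := lp (fun _ : Om => ℝ) ∞

lemma A_bd (α : Om) (x : B) (n : ℕ) : |A α x n| ≤ ‖x‖ := by
  rcases A2 α n with ⟨c, h, rfl⟩ | h
  · rw [A1 h]; exact lp.norm_apply_le_norm ENNReal.top_ne_zero x c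
  · simp [h]

lemma tbd {a : ℕ → ℝ} {C s : ℝ} (h : ∀ n, |a n| ≤ C) (hs : |s| ≤ 1 / 4) (n : ℕ) :
    ‖a n * s ^ n‖ ≤ C * (1 / 4) ^ n := by
  rw [norm_mul, norm_pow]
  exact mul_le_mul (h n) (pow_le_pow_left₀ (norm_nonneg _) hs n) (by positivity) ((abs_nonneg _).trans (h n))

lemma Hsum {a : ℕ → ℝ} {C s : ℝ} (h : ∀ n, |a n| ≤ C) (hs : |s| ≤ 1 / 4) :
    Summable fun n => a n * s ^ n := Summable.of_norm_bounded (geo.summable.mul_left C) (tbd h hs)

lemma Hbd {a : ℕ → ℝ} {C s : ℝ} (h : ∀ n, |a n| ≤ C) (hs : |s| ≤ 1 / 4) (h0 : a 0 = 0) :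
    |H a s| ≤ C / 3 := by
  rw [H, (Hsum h hs).tsum_eq_zero_add, h0, zero_mul, zero_add]
  have := tsum_of_norm_bounded (f := fun n => a (n + 1) * s ^ (n + 1)) (geo.mul_left (C / 4))
    fun n => (tbd h hs (n + 1)).trans (le_of_eq (by ring))
  exact this.trans (le_of_eq (by ring))

lemma exσ : ∃ σ : Om → ℕ → Fin 2, Function.Injective σ := by
  have : Cardinal.mk Om ≤ Cardinal.mk (ℕ → Fin 2) := by
    simpa [Cardinal.mk_ord_toType] using Cardinal.aleph_one_le_continuum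
  obtain ⟨f⟩ := this
  exact ⟨f, f.2⟩
noncomputable def σ : Om → ℕ → Fin 2 := exσ.choose

noncomputable def ψ (α : Om) (x : B) : ℝ := H (A α x) (t (σ α))

lemma ψ_bd (α : Om) (x : B) : |ψ α x| ≤ ‖x‖ / 3 := Hbd (A_bd α x) (t_bd _) (by
  rcases A2 α 0 with ⟨c, -, h⟩ | h
  · exact absurd h.symm (Nat.succ_ne_zero _)
  · exact h x)

lemma φ_bd (α : Om) (x : B) : ‖x α + ψ α x‖ ≤ 2 * ‖x‖ := by
  have := ψ_bd α x; have := lp.norm_apply_le_norm ENNReal.top_ne_zero x α
  have := norm_add_le (x α) (ψ α x); have := norm_nonneg x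
  simp only [Real.norm_eq_abs] at *; linarith

noncomputable def T : B →L[ℝ] B := LinearMap.mkContinuous
  { toFun := fun x => ⟨fun α => x α + ψ α x, memℓp_infty ⟨2 * ‖x‖, by
      rintro _ ⟨α, rfl⟩; exact φ_bd α x⟩⟩
    map_add' := fun x y => lp.ext (funext fun α => by
      have : ψ α (x + y) = ψ α x + ψ α y := by
        unfold ψ H
        rw [← (Hsum (A_bd α x) (t_bd _)).tsum_add (Hsum (A_bd α y) (t_bd _))]
        refine tsum_congr fun n => ?_
        rcases A2 α n with ⟨c, h, rfl⟩ | h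
        · simp [A1 h, add_mul]
        · simp [h]
      show (x + y) α + ψ α (x + y) = (x α + ψ α x) + (y α + ψ α y)
      rw [this, lp.coeFn_add, Pi.add_apply]; ring)
    map_smul' := fun c x => lp.ext (funext fun α => by
      have : ψ α (c • x) = c * ψ α x := by
        unfold ψ H
        rw [← tsum_mul_left]
        refine tsum_congr fun n => ?_
        rcases A2 α n with ⟨d, h, rfl⟩ | h
        · simp [A1 h, mul_assoc]
        · simp [h]
      show (c • x) α + ψ α (c • x) = c * (x α + ψ α x)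
      rw [this, lp.coeFn_smul, Pi.smul_apply, smul_eq_mul]; ring) } 2
  fun x => lp.norm_le_of_forall_le (by positivity) fun α => φ_bd α x

lemma T_ap (x : B) (α : Om) : T x α = x α + ψ α x := rfl

lemma T_low (x : B) : ‖x‖ ≤ 3 / 2 * ‖T x‖ := by
  have : ‖x‖ ≤ ‖T x‖ + ‖x‖ / 3 := lp.norm_le_of_forall_le (by positivity) fun α => by
    have h1 := lp.norm_apply_le_norm ENNReal.top_ne_zero (T x) α
    have h2 := ψ_bd α x
    have h3 := abs_sub (x α + ψ α x) (ψ α x)
    rw [T_ap, Real.norm_eq_abs] at h1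
    rw [add_sub_cancel_right] at h3
    rw [Real.norm_eq_abs]; linarith
  linarith

def C0 : Submodule ℝ B where
  carrier := {x | Tendsto x cofinite (𝓝 0)}
  add_mem' := fun {x y} h1 h2 => by
    have := Tendsto.add h1 h2
    rw [add_zero] at this
    exact this
  zero_mem' := tendsto_const_nhds (x := (0 : ℝ))
  smul_mem' := fun c x h => by simpa [Pi.smul_def] using Tendsto.const_smul h c

lemma C0_closed : IsClosed (C0 : Set B) := by
  refine isClosed_of_closure_subset fun x hx => Metric.tendsto_nhds.2 fun ε hε => ?_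
  obtain ⟨y, hy, h⟩ := Metric.mem_closure_iff.1 hx (ε / 2) (by linarith)
  filter_upwards [Metric.tendsto_nhds.1 hy (ε / 2) (by linarith)] with α hα
  have h1 := lp.norm_apply_le_norm ENNReal.top_ne_zero (x - y) α
  rw [lp.coeFn_sub, Pi.sub_apply, ← dist_eq_norm, ← dist_eq_norm] at h1
  have := dist_triangle (x α) (y α) 0
  linarith

noncomputable def E : Submodule ℝ B := C0.map (T : B →ₗ[ℝ] B)

instance : CompleteSpace E :=
  (((T.antilipschitz_of_bound (K := 3 / 2) fun x => by simpa using T_low x).isClosedEmbedding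
    T.uniformContinuous).isClosedMap _ C0_closed).completeSpace_coe

noncomputable def ev (α : Om) : E →ₗ[ℝ] ℝ where
  toFun w := w.1 α
  map_add' _ _ := rfl
  map_smul' _ _ := rfl

lemma supp (z : E) (f : E →L[ℝ] ℝ) (hz : ‖z‖ = 1) (hf : ‖f‖ = 1) (h : f z = 1) :
    ∃ (S : Finset Om) (c : S → ℝ), ∀ w, f w = ∑ α : S, c α * w.1 α := by
  obtain ⟨x, hx, hxz⟩ := z.2
  have hx' : T x = z.1 := hxz
  have h1 : {α | ¬ dist (x α) 0 < 1 / 4}.Finite := Metric.tendsto_nhds.1 hx (1 / 4) (by norm_num)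
  have h2 : ‖x‖ ≤ 3 / 2 := by
    have := T_low x
    rw [hx', show ‖z.1‖ = 1 from hz] at this; linarith
  have key : ∀ w : E, (∀ α ∈ h1.toFinset, w.1 α = 0) → ‖w‖ ≤ 1 / 4 → f w ≤ 0 := fun w h3 h4 => by
    have h5 : ‖z + w‖ ≤ 1 := lp.norm_le_of_forall_le zero_le_one fun α => by
      show ‖z.1 α + w.1 α‖ ≤ 1
      by_cases h6 : α ∈ h1.toFinset
      · rw [h3 α h6, add_zero]
        exact (lp.norm_apply_le_norm ENNReal.top_ne_zero z.1 α).trans hz.le
      · have h7 : |x α| < 1 / 4 := by simpa using h6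
        have h8 := (lp.norm_apply_le_norm ENNReal.top_ne_zero w.1 α).trans h4
        have h9 := ψ_bd α x
        have := abs_add_le (x α) (ψ α x)
        refine (norm_add_le _ _).trans ?_
        rw [← hx', T_ap, Real.norm_eq_abs]; linarith
    have h6 := (le_abs_self _).trans (f.le_opNorm (z + w))
    rw [map_add, h, hf] at h6
    linarith
  have h3 : (f : E →ₗ[ℝ] ℝ) ∈ Submodule.span ℝ (range fun α : h1.toFinset => ev α) :=
    mem_span_of_iInf_ker_le_ker fun w hw => by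
      simp only [Submodule.mem_iInf, LinearMap.mem_ker] at hw
      set s := (4 * (‖w‖ + 1))⁻¹ with hs
      have s0 : 0 < s := by positivity
      have k : ∀ e : ℝ, |e| = s → e * f w ≤ 0 := fun e he => by
        have := key (e • w) (fun α hα => by
          show e * w.1 α = 0
          rw [show w.1 α = 0 from hw ⟨α, hα⟩, mul_zero]) (by
          rw [norm_smul, Real.norm_eq_abs, he, hs, inv_mul_le_iff₀ (by positivity)]; linarith)
        simpa using this
      have k1 := k s (abs_of_pos s0)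
      have k2 := k (-s) (by rw [abs_neg, abs_of_pos s0])
      show f w = 0
      nlinarith
  obtain ⟨c, hc⟩ := (Submodule.mem_span_range_iff_exists_fun ℝ).1 h3
  refine ⟨_, c, fun w => ?_⟩
  have := LinearMap.congr_fun hc w
  rw [LinearMap.sum_apply] at this
  exact this.symm

lemma ub {Z : Set Om} (h : Z.Countable) : ∃ δ, ∀ α ∈ Z, α < δ := by
  by_contra! h1
  refine Om1 ((h.biUnion fun α _ => (Om2 α).insert α).mono fun δ _ => ?_)
  obtain ⟨α, h2, h3⟩ := h1 δ
  exact mem_biUnion h2 h3.eq_or_lt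

lemma van {Z : Set Om} (h : Z.Countable) : ∃ w : E, w ≠ 0 ∧ ∀ α ∈ Z, w.1 α = 0 := by
  classical
  obtain ⟨δ, hδ⟩ := ub h
  let x : B := lp.single ∞ δ (1 : ℝ)
  have hx : ∀ α, α ≠ δ → x α = 0 := fun α h => lp.single_apply_ne (E := fun _ : Om => ℝ) ∞ δ 1 h
  refine ⟨⟨T x, x, tendsto_const_nhds.congr' ?_, rfl⟩, fun h0 => ?_, fun α hα => ?_⟩
  · filter_upwards [eventually_cofinite_ne δ] with α h using (hx α h).symm
  · have h1 := T_low x
    rw [show T x = 0 from congrArg Subtype.val h0, norm_zero, mul_zero, norm_le_zero_iff] at h1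
    have h2 : x δ = 1 := lp.single_apply_self (E := fun _ : Om => ℝ) ∞ δ 1
    simp [h1] at h2
  · show x α + ψ α x = 0
    have : A α x = 0 := funext fun n => by
      rcases A2 α n with ⟨c, h1, rfl⟩ | h1
      · rw [A1 h1]; exact hx c (h1.trans (hδ α hα)).ne
      · exact h1 x
    simp [ψ, H, this, hx α (hδ α hα).ne]

theorem result : ∃ (E : Type) (_ : NormedAddCommGroup E) (_ : NormedSpace ℝ E) (_ : CompleteSpace E),
    ¬ ∃ (I : Type) (x : I → E) (f : I → E →L[ℝ] ℝ),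
      (∀ i, f i (x i) = 1) ∧ (∀ i j, i ≠ j → f i (x j) = 0) ∧ (∀ i, ‖x i‖ = 1) ∧ (∀ i, ‖f i‖ = 1) ∧
      ∀ y : E, (∀ i, f i y = 0) → y = 0 := by
  classical
  refine ⟨E, inferInstance, inferInstance, inferInstance, ?_⟩
  rintro ⟨I, z, f, h1, h2, h3, h4, h5⟩
  choose S c hc using fun i => supp (z i) (f i) (h3 i) (h4 i) (h1 i)
  have tot : ∀ Z : Set Om, Z.Countable → (∀ i (α : S i), c i α ≠ 0 → α.1 ∈ Z) → False := fun Z hZ h => by
    obtain ⟨w, w0, w1⟩ := van hZ
    refine w0 (h5 w fun i => ?_)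
    rw [hc]
    refine Finset.sum_eq_zero fun α _ => ?_
    by_cases h6 : c i α = 0
    · rw [h6, zero_mul]
    · rw [w1 _ (h i α h6), mul_zero]
  rcases finite_or_infinite I with hI | hI
  · exact tot (⋃ i, S i) (countable_iUnion fun i => (S i).countable_toSet)
      fun i α _ => mem_iUnion.2 ⟨i, α.2⟩
  let j := Infinite.natEmbedding I
  let Y : Submodule ℝ E := Submodule.span ℝ (range fun n => z (j n))
  have hY : ¬ Module.Finite ℝ Y := fun h => by
    have li : LinearIndependent ℝ fun n => z (j n) :=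
      LinearIndependent.of_pairwise_dual_eq_zero_one _ (fun n => (f (j n) : E →ₗ[ℝ] ℝ))
        (fun n m h => h2 _ _ (j.injective.ne h)) fun n => h1 _
    exact Module.Finite.not_linearIndependent_of_infinite _ (linearIndependent_span li)
  choose x hx hxz using fun n => (z (j n)).2
  obtain ⟨δ, hδ⟩ := ub (countable_iUnion fun n => (hx n).countable_compl_preimage_ker)
  have hX : ∀ y : Y, ∃ x : B, (∀ c, δ < c → x c = 0) ∧ T x = y.1.1 := by
    rintro ⟨y, hy⟩
    induction hy using Submodule.span_induction with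
    | mem y hy =>
      obtain ⟨n, rfl⟩ := hy
      refine ⟨x n, fun c hc => ?_, hxz n⟩
      by_contra h
      exact lt_asymm hc (hδ c (mem_iUnion.2 ⟨n, by simpa using h⟩))
    | zero => exact ⟨0, fun _ _ => rfl, map_zero _⟩
    | add y y' _ _ a b =>
      obtain ⟨p, p1, p2⟩ := a; obtain ⟨q, q1, q2⟩ := b
      exact ⟨p + q, fun c hc => by simp [p1 c hc, q1 c hc], by rw [map_add, p2, q2]; rfl⟩
    | smul s y _ a =>
      obtain ⟨p, p1, p2⟩ := a
      exact ⟨s • p, fun c hc => by simp [p1 c hc], by rw [map_smul, p2]; rfl⟩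
  choose X X1 X2 using hX
  have hr : ∀ μ, ∃ β, (∃ α, δ < α ∧ mm δ α = μ) → δ < β ∧ mm δ β = μ := fun μ => by
    by_cases h : ∃ α, δ < α ∧ mm δ α = μ
    · exact ⟨h.choose, fun _ => h.choose_spec⟩
    · exact ⟨δ, fun h' => absurd h' h⟩
  choose rep hrep using hr
  have hA : ∀ α ∉ Iic δ, ∀ y, A (rep (mm δ α)) (X y) = A α (X y) := fun α hα y => by
    obtain ⟨r1, r2⟩ := hrep (mm δ α) ⟨α, not_le.1 hα, rfl⟩
    exact A_eq r1 (not_le.1 hα) r2 _ (X1 y)
  let u : Om → Y →ₗ[ℝ] ℝ := fun α => (ev α).comp Y.subtype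
  have K := fun k => key hY σ exσ.choose_spec (Iic δ) (by rw [← Iio_insert]; exact (Om2 δ).insert δ)
    (mm δ) (fun μ y => A (rep μ) (X y)) (fun μ y => ⟨_, A_bd _ _⟩) u
    (fun α hα y => by
      show y.1.1 α = _
      rw [hA α hα, ← X2, T_ap, X1 y α (not_le.1 hα), zero_add]; rfl)
    (fun α hα y hy h => hy (by
      rw [hA α hα] at h
      have : X y = 0 := lp.ext (funext fun c => by
        rcases le_or_gt c δ with h6 | h6
        · rw [← A1 (h6.trans_lt (not_le.1 hα)) (X y), h]; rfl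
        · exact X1 y c h6)
      exact Subtype.ext (Subtype.ext (by rw [← X2, this, map_zero]; rfl)))) k ∅
  refine tot _ ((countable_iUnion K).union (countable_iUnion fun n => (S (j n)).countable_toSet))
    fun i α hα => ?_
  by_cases h : ∃ n, j n = i
  · obtain ⟨n, rfl⟩ := h
    exact Or.inr (mem_iUnion.2 ⟨n, α.2⟩)
  have h6 : ∑ β : S i, c i β • u β = 0 := LinearMap.ext fun y => by
    have : Y ≤ LinearMap.ker (f i : E →ₗ[ℝ] ℝ) := Submodule.span_le.2 (by
      rintro _ ⟨n, rfl⟩; exact h2 _ _ fun h' => h ⟨n, h'.symm⟩)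
    rw [LinearMap.sum_apply]
    exact (hc i y).symm.trans (this y.2)
  refine Or.inl (mem_iUnion.2 ⟨_, (S i).erase α, Nat.lt_succ_self _, Finset.notMem_erase _ _, ?_⟩)
  rw [← Finset.add_sum_erase _ _ (Finset.mem_univ α), add_eq_zero_iff_eq_neg] at h6
  rw [← Submodule.smul_mem_iff _ hα, h6]
  exact neg_mem (sum_mem fun β hβ => Submodule.smul_mem _ _ (Submodule.subset_span
    ⟨β, Or.inr (Finset.mem_erase.2 ⟨fun h => Finset.ne_of_mem_erase hβ (Subtype.ext h), β.2⟩), rfl⟩))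

end Pool.Agent.Results.MP_735d18_an.NoSystem
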